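import Pool.Agent.Y234.GS.StmA

/-!
# Symbols of sections for Groebner data (helper333, job SYM of helper234)
-/

set_option autoImplicit false
set_option linter.unusedSectionVars false

namespace Pool.Agent.Y333.GS

open Pool.Agent.Y234.GS MvPolynomial

section basic

variable {K L ι : Type} [Field K] [Field L] [Algebra K L] [Fintype ι] {x : ι → L} {w : ι → ℕ}

lemma mon_add (b c : ι → ℕ) : mon x (b + c) = mon x b * mon x c := by
  simp only [mon, Pi.add_apply, pow_add, Finset.prod_mul_distrib]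

lemma deg_add (b c : ι → ℕ) : deg (b + c) = deg b + deg c := by
  simp only [deg, Pi.add_apply, Finset.sum_add_distrib]

lemma wt_add (b c : ι → ℕ) : wt w (b + c) = wt w b + wt w c := by
  simp only [wt, Pi.add_apply, mul_add, Finset.sum_add_distrib]

lemma mon_mem_WV {b : ι → ℕ} {e : ℕ} {s : ℤ} (h1 : deg b = e) (h2 : (wt w b : ℤ) ≤ s) :
    mon x b ∈ WV K x w e s := Submodule.subset_span ⟨b, h1, h2, rfl⟩

lemma WV_mono {e : ℕ} {s s' : ℤ} (h : s ≤ s') : WV K x w e s ≤ WV K x w e s' := by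
  apply Submodule.span_mono
  rintro a ⟨b, h1, h2, h3⟩
  exact ⟨b, h1, h2.trans h, h3⟩

lemma WV_mul {e e' : ℕ} {s s' : ℤ} {a a' : L} (ha : a ∈ WV K x w e s)
    (ha' : a' ∈ WV K x w e' s') : a * a' ∈ WV K x w (e + e') (s + s') := by
  have h : WV K x w e s * WV K x w e' s' ≤ WV K x w (e + e') (s + s') := by
    rw [WV, WV, Submodule.span_mul_span]
    apply Submodule.span_le.2
    rintro _ ⟨_, ⟨b, h1, h2, rfl⟩, _, ⟨b', h1', h2', rfl⟩, rfl⟩
    show mon x b * mon x b' ∈ WV K x w (e + e') (s + s')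
    rw [← mon_add]
    refine mon_mem_WV (by rw [deg_add, h1, h1']) ?_
    rw [wt_add]
    push_cast
    exact add_le_add h2 h2'
  exact h (Submodule.mul_mem_mul ha ha')

lemma WV_one {s : ℤ} (hs : 0 ≤ s) : (1 : L) ∈ WV K x w 0 s := by
  have h : (1 : L) = mon x (fun _ => 0) := by simp [mon]
  rw [h]
  exact mon_mem_WV (by simp [deg]) (by simpa [wt] using hs)

lemma WV_pow {e : ℕ} {s : ℤ} {a : L} (ha : a ∈ WV K x w e s) (n : ℕ) :
    a ^ n ∈ WV K x w (n * e) (n * s) := by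
  induction n with
  | zero => simpa using WV_one (K := K) (x := x) (w := w) (s := 0) le_rfl
  | succ n ih =>
    rw [pow_succ]
    have h := WV_mul ih ha
    have e1 : n * e + e = (n + 1) * e := by ring
    have e2 : (n : ℤ) * s + s = ((n + 1 : ℕ) : ℤ) * s := by push_cast; ring
    rw [e1, e2] at h
    exact h

variable [LinearOrder ι]

/-- shift of an exponent by `N` on `S` -/
lemma shift_eq (hx : ∀ i, x i ≠ 0) {S : Finset ι} {N : ℕ} {b : ι → ℤ} {c : ι → ℕ}
    (h : ∀ i, (c i : ℤ) = b i + if i ∈ S then (N : ℤ) else 0) :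
    (∏ i ∈ S, x i) ^ N * monz x b = mon x c ∧ (deg c : ℤ) = degz b + N * S.card ∧
      (wt w c : ℤ) = wtz w b + N * ∑ i ∈ S, (w i : ℤ) := by
  refine ⟨?_, ?_, ?_⟩
  · have h1 : (∏ i ∈ S, x i) ^ N = ∏ i, x i ^ (if i ∈ S then (N : ℤ) else 0) := by
      rw [← Finset.prod_pow, ← Finset.prod_filter_mul_prod_filter_not Finset.univ (fun i => i ∈ S)
        (fun i => x i ^ (if i ∈ S then (N : ℤ) else 0))]
      have h2 : Finset.univ.filter (fun i => i ∈ S) = S := by ext i; simp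
      rw [h2]
      have h3 : ∏ i ∈ Finset.univ.filter (fun i => ¬ i ∈ S),
          x i ^ (if i ∈ S then (N : ℤ) else 0) = 1 := by
        apply Finset.prod_eq_one
        intro i hi
        rw [if_neg (Finset.mem_filter.1 hi).2, zpow_zero]
      rw [h3, mul_one]
      refine Finset.prod_congr rfl fun i hi => ?_
      rw [if_pos hi, zpow_natCast]
    rw [h1, monz, mon, ← Finset.prod_mul_distrib]
    refine Finset.prod_congr rfl fun i _ => ?_
    rw [← zpow_add₀ (hx i), ← zpow_natCast, h i, add_comm]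
  · rw [deg, degz]
    push_cast
    rw [Finset.sum_congr rfl fun i _ => h i, Finset.sum_add_distrib, Finset.sum_ite_mem,
      Finset.univ_inter, Finset.sum_const, nsmul_eq_mul, mul_comm]
  · rw [wt, wtz]
    push_cast
    have h4 : ∀ i, (w i : ℤ) * (c i : ℤ) = (w i : ℤ) * b i + if i ∈ S then (N : ℤ) * w i else 0 := by
      intro i
      rw [h i]
      split_ifs
      · ring
      · ring
    rw [Finset.sum_congr rfl fun i _ => h4 i, Finset.sum_add_distrib, Finset.sum_ite_mem,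
      Finset.univ_inter, Finset.mul_sum]

/-- the indicator of `S` times `n` -/
lemma prod_pow_eq (S : Finset ι) (n : ℕ) :
    (∏ i ∈ S, x i) ^ n = mon x (fun i => if i ∈ S then n else 0) := by
  rw [mon, ← Finset.prod_pow]
  have h1 : ∀ i, x i ^ (if i ∈ S then n else 0) = if i ∈ S then x i ^ n else 1 := by
    intro i
    split_ifs
    · rfl
    · exact pow_zero _
  rw [Finset.prod_congr rfl fun i _ => h1 i, Finset.prod_ite_mem, Finset.univ_inter]

lemma deg_ind (S : Finset ι) (n : ℕ) : deg (fun i => if i ∈ S then n else 0) = n * S.card := by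
  rw [deg, Finset.sum_ite_mem, Finset.univ_inter, Finset.sum_const, smul_eq_mul, mul_comm]

lemma wt_ind (S : Finset ι) (n : ℕ) :
    (wt w (fun i => if i ∈ S then n else 0) : ℤ) = n * ∑ i ∈ S, (w i : ℤ) := by
  rw [wt]
  push_cast
  have h1 : ∀ i, (w i : ℤ) * (if i ∈ S then (n : ℤ) else 0) =
      if i ∈ S then (n : ℤ) * w i else 0 := by
    intro i
    split_ifs
    · ring
    · ring
  rw [Finset.sum_congr rfl fun i _ => h1 i, Finset.sum_ite_mem, Finset.univ_inter, Finset.mul_sum]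

lemma prod_pow_mem (S : Finset ι) (n : ℕ) :
    (∏ i ∈ S, x i) ^ n ∈ WV K x w (n * S.card) (n * ∑ i ∈ S, (w i : ℤ)) := by
  rw [prod_pow_eq]
  exact mon_mem_WV (deg_ind S n) (wt_ind S n).le

/-- the exponent `N` may be taken large -/
lemma WSec_raise {m s : ℤ} {S : Finset ι} {a : L} (ha : a ∈ WSec K x w m s S) :
    ∃ N₀ : ℕ, ∀ N : ℕ, N₀ ≤ N → ∃ e : ℕ, (e : ℤ) = m + N * S.card ∧
      (∏ i ∈ S, x i) ^ N * a ∈ WV K x w e (s + N * (∑ i ∈ S, (w i : ℤ))) := by
  obtain ⟨N₀, e₀, h1, h2⟩ := ha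
  refine ⟨N₀, fun N hN => ?_⟩
  obtain ⟨k, rfl⟩ := Nat.exists_eq_add_of_le hN
  refine ⟨k * S.card + e₀, by push_cast; rw [h1]; ring, ?_⟩
  have h3 := WV_mul (prod_pow_mem (K := K) (x := x) (w := w) S k) h2
  have e1 : (∏ i ∈ S, x i) ^ k * ((∏ i ∈ S, x i) ^ N₀ * a) = (∏ i ∈ S, x i) ^ (N₀ + k) * a := by
    rw [pow_add]; ring
  have e2 : (k : ℤ) * (∑ i ∈ S, (w i : ℤ)) + (s + N₀ * (∑ i ∈ S, (w i : ℤ))) =
      s + ((N₀ + k : ℕ) : ℤ) * (∑ i ∈ S, (w i : ℤ)) := by push_cast; ring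
  rw [e1, e2] at h3
  exact h3

lemma WSec_mono {m s s' : ℤ} (h : s ≤ s') {S : Finset ι} {a : L} (ha : a ∈ WSec K x w m s S) :
    a ∈ WSec K x w m s' S := by
  obtain ⟨N, e, h1, h2⟩ := ha
  exact ⟨N, e, h1, WV_mono (by linarith) h2⟩

lemma WSec_add {m s : ℤ} {S : Finset ι} {a a' : L} (ha : a ∈ WSec K x w m s S)
    (ha' : a' ∈ WSec K x w m s S) : a + a' ∈ WSec K x w m s S := by
  obtain ⟨N, hN⟩ := WSec_raise ha
  obtain ⟨N', hN'⟩ := WSec_raise ha'
  obtain ⟨e, h1, h2⟩ := hN (max N N') (le_max_left _ _)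
  obtain ⟨e', h1', h2'⟩ := hN' (max N N') (le_max_right _ _)
  have he : e = e' := by
    have := h1.trans h1'.symm
    exact_mod_cast this
  subst he
  refine ⟨max N N', e, h1, ?_⟩
  rw [mul_add]
  exact Submodule.add_mem _ h2 h2'

lemma WSec_smul {m s : ℤ} {S : Finset ι} (r : K) {a : L} (ha : a ∈ WSec K x w m s S) :
    r • a ∈ WSec K x w m s S := by
  obtain ⟨N, e, h1, h2⟩ := ha
  refine ⟨N, e, h1, ?_⟩
  rw [mul_smul_comm]
  exact Submodule.smul_mem _ _ h2

lemma WSec_neg {m s : ℤ} {S : Finset ι} {a : L} (ha : a ∈ WSec K x w m s S) :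
    -a ∈ WSec K x w m s S := by
  have := WSec_smul (-1 : K) ha
  rwa [neg_one_smul] at this

lemma WSec_sub {m s : ℤ} {S : Finset ι} {a a' : L} (ha : a ∈ WSec K x w m s S)
    (ha' : a' ∈ WSec K x w m s S) : a - a' ∈ WSec K x w m s S := by
  rw [sub_eq_add_neg]
  exact WSec_add ha (WSec_neg ha')

/-- zero is a section if there are exponents -/
lemma WSec_zero' {m s : ℤ} {S : Finset ι} {N e : ℕ} (h : (e : ℤ) = m + N * S.card) :
    (0 : L) ∈ WSec K x w m s S := by
  refine ⟨N, e, h, ?_⟩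
  rw [mul_zero]
  exact Submodule.zero_mem _

lemma WSec_zero {m s : ℤ} {S : Finset ι} (hS : S.Nonempty) :
    (0 : L) ∈ WSec K x w m s S := by
  have h1 : 1 ≤ S.card := hS.card_pos
  have h2 : 0 ≤ m + m.natAbs * S.card := by
    have h3 : (m.natAbs : ℤ) * 1 ≤ m.natAbs * S.card :=
      mul_le_mul_of_nonneg_left (by exact_mod_cast h1) (by positivity)
    have h4 : -m ≤ (m.natAbs : ℤ) := by omega
    linarith
  exact WSec_zero' (N := m.natAbs) (e := (m + m.natAbs * S.card).toNat) (Int.toNat_of_nonneg h2)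

/-- sections of all exponents are sections -/
lemma WSec_mul {m m' s s' : ℤ} {S : Finset ι} {a a' : L} (ha : a ∈ WSec K x w m s S)
    (ha' : a' ∈ WSec K x w m' s' S) : a * a' ∈ WSec K x w (m + m') (s + s') S := by
  obtain ⟨N, e, h1, h2⟩ := ha
  obtain ⟨N', e', h1', h2'⟩ := ha'
  refine ⟨N + N', e + e', by push_cast; rw [h1, h1']; ring, ?_⟩
  have h3 := WV_mul h2 h2'
  have e1 : (∏ i ∈ S, x i) ^ N * a * ((∏ i ∈ S, x i) ^ N' * a') =
      (∏ i ∈ S, x i) ^ (N + N') * (a * a') := by rw [pow_add]; ring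
  have e2 : s + N * (∑ i ∈ S, (w i : ℤ)) + (s' + N' * (∑ i ∈ S, (w i : ℤ))) =
      s + s' + ((N + N' : ℕ) : ℤ) * (∑ i ∈ S, (w i : ℤ)) := by push_cast; ring
  rw [e1, e2] at h3
  exact h3

end basic

section grob

variable {K L ι : Type} [Field K] [Field L] [Algebra K L] [LinearOrder ι] [Fintype ι]
  {x : ι → L} {w : ι → ℕ} {Δ : Finset (Finset ι)}

/-- nonstandard monomials have smaller weight -/
lemma red_mem (hg : Grob K x w Δ) {b : ι → ℕ} (hb : supp b ∉ Δ) {e : ℕ} {s : ℤ}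
    (h1 : deg b = e) (h2 : (wt w b : ℤ) ≤ s) : mon x b ∈ WV K x w e (s - 1) := by
  refine (Submodule.span_le.2 ?_ : _ ≤ WV K x w e (s - 1)) (hg.red b hb)
  rintro a ⟨b', h3, h4, h5, rfl⟩
  refine mon_mem_WV (h3.trans h1) ?_
  have : (wt w b' : ℤ) < wt w b := by exact_mod_cast h5
  omega

/-- the standard monomials span -/
lemma WV_std (hg : Grob K x w Δ) {e : ℕ} {s : ℤ} {a : L} (ha : a ∈ WV K x w e s) :
    a ∈ Submodule.span K
      {a : L | ∃ b : ι → ℕ, deg b = e ∧ supp b ∈ Δ ∧ (wt w b : ℤ) ≤ s ∧ a = mon x b} := by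
  refine (Submodule.span_le.2 ?_ : WV K x w e s ≤ _) ha
  rintro a ⟨b, h1, h2, rfl⟩
  by_cases hb : supp b ∈ Δ
  · exact Submodule.subset_span ⟨b, h1, hb, h2, rfl⟩
  · refine (Submodule.span_mono ?_) (hg.red b hb)
    rintro a ⟨b', h3, h4, h5, rfl⟩
    refine ⟨b', h3.trans h1, h4, ?_, rfl⟩
    have : (wt w b' : ℤ) < wt w b := by exact_mod_cast h5
    omega

/-- the exponents of the symbols -/
def Ok (w : ι → ℕ) (Δ : Finset (Finset ι)) (m s : ℤ) (S : Finset ι) (b : ι → ℤ) : Prop :=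
  degz b = m ∧ wtz w b = s ∧ (∀ i, b i < 0 → i ∈ S) ∧
    S ∪ Finset.univ.filter (fun i => b i ≠ 0) ∈ Δ

lemma sum_abs_ge (b : ι → ℤ) (i : ι) : (b i).natAbs ≤ ∑ i, (b i).natAbs :=
  Finset.single_le_sum (f := fun i => (b i).natAbs) (fun _ _ => Nat.zero_le _) (Finset.mem_univ i)

/-- the shifted exponent -/
def sh (S : Finset ι) (N : ℕ) (b : ι → ℤ) : ι → ℕ := fun i => (b i + if i ∈ S then (N : ℤ) else 0).toNat

lemma sh_cast {S : Finset ι} {N : ℕ} {b : ι → ℤ} (hb : ∀ i, b i < 0 → i ∈ S)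
    (hN : ∑ i, (b i).natAbs ≤ N) (i : ι) :
    ((sh S N b i : ℕ) : ℤ) = b i + if i ∈ S then (N : ℤ) else 0 := by
  have h1 := sum_abs_ge b i
  rw [sh, Int.toNat_of_nonneg]
  by_cases hi : i ∈ S
  · rw [if_pos hi]; omega
  · rw [if_neg hi]
    have : ¬ b i < 0 := fun h => hi (hb i h)
    omega

lemma supp_sh_sub {S : Finset ι} {N : ℕ} {b : ι → ℤ} (hb : ∀ i, b i < 0 → i ∈ S)
    (hN : ∑ i, (b i).natAbs ≤ N) :
    supp (sh S N b) ⊆ S ∪ Finset.univ.filter (fun i => b i ≠ 0) := by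
  intro i hi
  rw [supp, Finset.mem_filter] at hi
  rw [Finset.mem_union, Finset.mem_filter]
  by_cases hiS : i ∈ S
  · exact Or.inl hiS
  · right
    refine ⟨Finset.mem_univ i, fun h0 => hi.2 ?_⟩
    have h1 := sh_cast hb hN i
    rw [if_neg hiS, h0, add_zero] at h1
    exact_mod_cast h1

lemma supp_sh_eq {S : Finset ι} {N : ℕ} {b : ι → ℤ} (hb : ∀ i, b i < 0 → i ∈ S)
    (hN : ∑ i, (b i).natAbs + 1 ≤ N) :
    supp (sh S N b) = S ∪ Finset.univ.filter (fun i => b i ≠ 0) := by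
  apply Finset.Subset.antisymm (supp_sh_sub hb (by omega))
  intro i hi
  rw [supp, Finset.mem_filter]
  refine ⟨Finset.mem_univ i, fun h0 => ?_⟩
  have h1 := sh_cast hb (by omega : ∑ i, (b i).natAbs ≤ N) i
  have h2 := sum_abs_ge b i
  rw [h0] at h1
  by_cases hiS : i ∈ S
  · rw [if_pos hiS] at h1
    push_cast at h1
    omega
  · rw [if_neg hiS] at h1
    rw [Finset.mem_union, Finset.mem_filter] at hi
    rcases hi with hi | hi
    · exact hiS hi
    · push_cast at h1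
      exact hi.2 (by omega)

/-- Laurent monomials are sections -/
theorem monz_mem (hx : ∀ i, x i ≠ 0) {S : Finset ι} {b : ι → ℤ} (hb : ∀ i, b i < 0 → i ∈ S) :
    monz x b ∈ WSec K x w (degz b) (wtz w b) S := by
  obtain ⟨h1, h2, h3⟩ := shift_eq (w := w) hx (sh_cast hb le_rfl)
  refine ⟨_, _, h2, ?_⟩
  rw [h1]
  exact mon_mem_WV rfl h3.le

theorem monz_mem_lt (hx : ∀ i, x i ≠ 0) (hg : Grob K x w Δ) {S : Finset ι} {b : ι → ℤ}
    (hb : ∀ i, b i < 0 → i ∈ S) (hS : S ∪ Finset.univ.filter (fun i => b i ≠ 0) ∉ Δ) :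
    monz x b ∈ WSec K x w (degz b) (wtz w b - 1) S := by
  obtain ⟨h1, h2, h3⟩ := shift_eq (w := w) hx
    (sh_cast hb (Nat.le_succ _ : ∑ i, (b i).natAbs ≤ ∑ i, (b i).natAbs + 1))
  refine ⟨_, _, h2, ?_⟩
  rw [h1]
  have h4 := red_mem hg (b := sh S (∑ i, (b i).natAbs + 1) b)
    (by rw [supp_sh_eq hb le_rfl]; exact hS) rfl h3.le
  refine WV_mono (le_of_eq ?_) h4
  ring

theorem monz_mem_all (hx : ∀ i, x i ≠ 0) (hg : Grob K x w Δ) {S : Finset ι} {b : ι → ℤ}
    (hb : ∀ i, b i < 0 → i ∈ S) (hS : S ∉ Δ) (M : ℕ) :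
    monz x b ∈ WSec K x w (degz b) (wtz w b - M) S := by
  obtain ⟨N, e, h1, h2⟩ := monz_mem (K := K) (w := w) hx hb
  have h3 : (∏ i ∈ S, x i) ∈ WV K x w (1 * S.card) (1 * (∑ i ∈ S, (w i : ℤ)) - 1) := by
    have e1 := prod_pow_eq (x := x) S 1
    rw [pow_one] at e1
    rw [e1]
    refine red_mem hg ?_ (deg_ind S 1) (by rw [wt_ind]; push_cast; exact le_rfl)
    have e2 : supp (fun i => if i ∈ S then 1 else 0) = S := by
      ext i
      rw [supp, Finset.mem_filter]
      by_cases hi : i ∈ S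
      · simp [hi]
      · simp [hi]
    rw [e2]
    exact hS
  have h4 := WV_mul (WV_pow h3 M) h2
  refine ⟨M + N, M * (1 * S.card) + e, ?_, ?_⟩
  · push_cast
    rw [h1]
    ring
  · have e1 : (∏ i ∈ S, x i) ^ M * ((∏ i ∈ S, x i) ^ N * monz x b) =
        (∏ i ∈ S, x i) ^ (M + N) * monz x b := by rw [pow_add]; ring
    rw [e1] at h4
    refine WV_mono (le_of_eq ?_) h4
    push_cast
    ring

/-- existence of symbols -/
theorem sym_exists (hx : ∀ i, x i ≠ 0) (hg : Grob K x w Δ) {m s : ℤ} {S : Finset ι} {a : L}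
    (ha : a ∈ WSec K x w m s S) : ∃ κ : (ι → ℤ) →₀ K,
      (∀ b ∈ κ.support, Ok w Δ m s S b) ∧
      a - κ.sum (fun b r => r • monz x b) ∈ WSec K x w m (s - 1) S := by
  classical
  obtain ⟨N, e, h1, h2⟩ := ha
  have hX : (∏ i ∈ S, x i) ≠ 0 := Finset.prod_ne_zero_iff.2 fun i _ => hx i
  have hXN : (∏ i ∈ S, x i) ^ N ≠ 0 := pow_ne_zero _ hX
  suffices h : ∀ y ∈ WV K x w e (s + N * (∑ i ∈ S, (w i : ℤ))), ∃ κ : (ι → ℤ) →₀ K,
      (∀ b ∈ κ.support, Ok w Δ m s S b) ∧
      ((∏ i ∈ S, x i) ^ N)⁻¹ * y - κ.sum (fun b r => r • monz x b) ∈ WSec K x w m (s - 1) S by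
    obtain ⟨κ, h3, h4⟩ := h _ h2
    refine ⟨κ, h3, ?_⟩
    rwa [← mul_assoc, inv_mul_cancel₀ hXN, one_mul] at h4
  intro y hy
  induction hy using Submodule.span_induction with
  | mem y hy =>
    obtain ⟨c, hc1, hc2, rfl⟩ := hy
    rcases lt_or_eq_of_le hc2 with hlt | heq
    · refine ⟨0, by simp, ?_⟩
      rw [Finsupp.sum_zero_index, sub_zero]
      refine ⟨N, e, h1, ?_⟩
      rw [← mul_assoc, mul_inv_cancel₀ hXN, one_mul]
      exact mon_mem_WV hc1 (by linarith)
    · obtain ⟨b, hb⟩ : ∃ b : ι → ℤ, b = fun i => (c i : ℤ) - if i ∈ S then (N : ℤ) else 0 :=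
        ⟨_, rfl⟩
      have hcb : ∀ i, (c i : ℤ) = b i + if i ∈ S then (N : ℤ) else 0 := by
        intro i; rw [hb]; ring
      obtain ⟨e1, e2, e3⟩ := shift_eq (w := w) hx hcb
      have hbm : ((∏ i ∈ S, x i) ^ N)⁻¹ * mon x c = monz x b := by
        rw [← e1, ← mul_assoc, inv_mul_cancel₀ hXN, one_mul]
      have hneg : ∀ i, b i < 0 → i ∈ S := by
        intro i hi
        by_contra hiS
        have := hcb i
        rw [if_neg hiS, add_zero] at this
        omega
      have hun : S ∪ Finset.univ.filter (fun i => b i ≠ 0) = S ∪ supp c := by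
        ext i
        simp only [Finset.mem_union, Finset.mem_filter, Finset.mem_univ, true_and, supp]
        by_cases hiS : i ∈ S
        · simp [hiS]
        · have := hcb i
          rw [if_neg hiS, add_zero] at this
          simp only [hiS, false_or]
          omega
      have hd : degz b = m := by
        have : (deg c : ℤ) = e := by rw [hc1]
        linarith
      have hw : wtz w b = s := by linarith
      by_cases hS : S ∪ supp c ∈ Δ
      · refine ⟨Finsupp.single b 1, ?_, ?_⟩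
        · intro b' hb'
          have : b' = b := by
            have := Finsupp.support_single_subset hb'
            rwa [Finset.mem_singleton] at this
          subst this
          exact ⟨hd, hw, hneg, by rw [hun]; exact hS⟩
        · rw [Finsupp.sum_single_index (h := fun b r => r • monz x b) (zero_smul _ _), one_smul,
            hbm, sub_self]
          exact WSec_zero' h1
      · refine ⟨0, by simp, ?_⟩
        rw [Finsupp.sum_zero_index, sub_zero, hbm]
        have h5 := monz_mem_lt (K := K) hx hg hneg (by rw [hun]; exact hS)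
        rwa [hd, hw] at h5
  | zero =>
    refine ⟨0, by simp, ?_⟩
    rw [Finsupp.sum_zero_index, sub_zero, mul_zero]
    exact WSec_zero' h1
  | add y y' _ _ ih ih' =>
    obtain ⟨κ, h3, h4⟩ := ih
    obtain ⟨κ', h3', h4'⟩ := ih'
    refine ⟨κ + κ', ?_, ?_⟩
    · intro b hb
      rcases Finset.mem_union.1 (Finsupp.support_add hb) with h | h
      · exact h3 b h
      · exact h3' b h
    · have e1 : (κ + κ').sum (fun b r => r • monz x b) =
          κ.sum (fun b r => r • monz x b) + κ'.sum (fun b r => r • monz x b) :=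
        Finsupp.sum_add_index' (fun b => zero_smul _ _) (fun b r r' => add_smul _ _ _)
      have e2 := WSec_add h4 h4'
      have e3 : ((∏ i ∈ S, x i) ^ N)⁻¹ * (y + y') - (κ + κ').sum (fun b r => r • monz x b) =
          (((∏ i ∈ S, x i) ^ N)⁻¹ * y - κ.sum (fun b r => r • monz x b)) +
          (((∏ i ∈ S, x i) ^ N)⁻¹ * y' - κ'.sum (fun b r => r • monz x b)) := by
        rw [e1]; ring
      rw [e3]
      exact e2
  | smul r y _ ih =>
    obtain ⟨κ, h3, h4⟩ := ih
    refine ⟨r • κ, ?_, ?_⟩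
    · intro b hb
      exact h3 b (Finsupp.support_smul hb)
    · have e1 : (r • κ).sum (fun b r => r • monz x b) =
          r • κ.sum (fun b r => r • monz x b) := by
        rw [Finsupp.sum_smul_index (h := fun b r => r • monz x b) (fun b => zero_smul _ _),
          Finsupp.smul_sum]
        refine Finsupp.sum_congr fun b _ => ?_
        rw [mul_smul]
      have e2 := WSec_smul r h4
      rw [smul_sub, ← mul_smul_comm, ← e1] at e2
      exact e2

/-- uniqueness of symbols -/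
theorem sym_unique (hx : ∀ i, x i ≠ 0) (hg : Grob K x w Δ) {m s : ℤ} {S : Finset ι}
    (κ : (ι → ℤ) →₀ K) (hκ : ∀ b ∈ κ.support, Ok w Δ m s S b)
    (hs : κ.sum (fun b r => r • monz x b) ∈ WSec K x w m (s - 1) S) : κ = 0 := by
  classical
  obtain ⟨N₀, hN₀⟩ := WSec_raise hs
  obtain ⟨N, hN⟩ : ∃ N : ℕ, N = N₀ + ∑ b ∈ κ.support, ∑ i, (b i).natAbs := ⟨_, rfl⟩
  obtain ⟨e, he, hmem⟩ := hN₀ N (by omega)
  have hNb : ∀ b ∈ κ.support, ∑ i, (b i).natAbs ≤ N := by
    intro b hb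
    have h1 : ∑ i, (b i).natAbs ≤ ∑ b ∈ κ.support, ∑ i, (b i).natAbs :=
      Finset.single_le_sum (f := fun b : ι → ℤ => ∑ i, (b i).natAbs)
        (fun _ _ => Nat.zero_le _) hb
    omega
  -- the standard monomials
  set I := {b : ι → ℕ // deg b = e ∧ supp b ∈ Δ} with hI
  set v : I → L := fun b => mon x b.1 with hv
  have hli : LinearIndependent K v := hg.indep e
  have hsh : ∀ b ∈ κ.support, deg (sh S N b) = e ∧ supp (sh S N b) ∈ Δ := by
    intro b hb
    obtain ⟨o1, o2, o3, o4⟩ := hκ b hb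
    obtain ⟨-, f2, -⟩ := shift_eq (w := w) hx (sh_cast o3 (hNb b hb))
    refine ⟨?_, hg.down _ o4 _ (supp_sh_sub o3 (hNb b hb))⟩
    have : (deg (sh S N b) : ℤ) = e := by rw [f2, he, o1]
    exact_mod_cast this
  let φ : κ.support → I := fun b => ⟨sh S N b.1, hsh b.1 b.2⟩
  have hφ : Function.Injective φ := by
    intro b b' hbb
    have h1 : sh S N b.1 = sh S N b'.1 := congrArg Subtype.val hbb
    apply Subtype.ext
    funext i
    have h2 := sh_cast (hκ b.1 b.2).2.2.1 (hNb b.1 b.2) i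
    have h3 := sh_cast (hκ b'.1 b'.2).2.2.1 (hNb b'.1 b'.2) i
    rw [h1, h3] at h2
    linarith
  -- the sum
  have hsum : (∏ i ∈ S, x i) ^ N * κ.sum (fun b r => r • monz x b) =
      ∑ b : κ.support, κ b.1 • v (φ b) := by
    rw [Finsupp.sum, Finset.mul_sum, ← Finset.sum_coe_sort κ.support]
    refine Finset.sum_congr rfl fun b _ => ?_
    rw [mul_smul_comm]
    congr 1
    exact (shift_eq (w := w) hx (sh_cast (hκ b.1 b.2).2.2.1 (hNb b.1 b.2))).1
  have hwφ : ∀ b : κ.support, (wt w (φ b).1 : ℤ) = s + N * (∑ i ∈ S, (w i : ℤ)) := by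
    intro b
    have := (shift_eq (w := w) hx (sh_cast (hκ b.1 b.2).2.2.1 (hNb b.1 b.2))).2.2
    rw [(hκ b.1 b.2).2.1] at this
    exact this
  have hdisj := hli.disjoint_span_image
    (s := {b : I | (wt w b.1 : ℤ) ≤ s - 1 + N * (∑ i ∈ S, (w i : ℤ))})
    (t := {b : I | (wt w b.1 : ℤ) = s + N * (∑ i ∈ S, (w i : ℤ))})
    (by
      rw [Set.disjoint_left]
      intro b hb hb'
      have h1 : (wt w b.1 : ℤ) ≤ s - 1 + N * (∑ i ∈ S, (w i : ℤ)) := hb
      have h2 : (wt w b.1 : ℤ) = s + N * (∑ i ∈ S, (w i : ℤ)) := hb'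
      linarith)
  have hm1 : (∏ i ∈ S, x i) ^ N * κ.sum (fun b r => r • monz x b) ∈ Submodule.span K
      (v '' {b : I | (wt w b.1 : ℤ) ≤ s - 1 + N * (∑ i ∈ S, (w i : ℤ))}) := by
    refine (Submodule.span_mono ?_) (WV_std hg hmem)
    rintro a ⟨b, g1, g2, g3, rfl⟩
    exact ⟨⟨b, g1, g2⟩, g3, rfl⟩
  have hm2 : (∏ i ∈ S, x i) ^ N * κ.sum (fun b r => r • monz x b) ∈ Submodule.span K
      (v '' {b : I | (wt w b.1 : ℤ) = s + N * (∑ i ∈ S, (w i : ℤ))}) := by
    rw [hsum]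
    refine Submodule.sum_mem _ fun b _ => Submodule.smul_mem _ _ (Submodule.subset_span ?_)
    exact ⟨φ b, hwφ b, rfl⟩
  have h0 := Submodule.disjoint_def.1 hdisj _ hm1 hm2
  rw [hsum] at h0
  have hli2 : LinearIndependent K (fun b : κ.support => v (φ b)) := hli.comp φ hφ
  have h3 := Fintype.linearIndependent_iff.1 hli2 (fun b => κ b.1) h0
  ext b
  by_cases hb : b ∈ κ.support
  · exact h3 ⟨b, hb⟩
  · exact Finsupp.notMem_support_iff.1 hb

/-- **Symbols of sections.** -/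
theorem sym : S_SYM := by
  intro K L ι _ _ _ _ _ x w Δ hx hg
  refine ⟨fun m s S a ha => sym_exists hx hg ha, fun m s S κ h1 h2 => sym_unique hx hg κ h1 h2,
    fun S b hb => monz_mem hx hb, fun S b hb hS => monz_mem_lt hx hg hb hS,
    fun S b hb hS _ M => monz_mem_all hx hg hb hS M⟩

end grob

end Pool.Agent.Y333.GS
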